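import Pool.Agent.Lib.PTg.Main
import Pool.Agent.Lib.MP_acb0a8_nt.NoSmall

/-!
# MP_acb0a8_nt: no small multiplier for a positive proportion of the primes `n`

For every real `lam > 0` there is `c > 0` such that for all large `X` at least `c X / log X` primes
`n ≤ X` have the property that `k n + p_k` is composite for every `1 ≤ k ≤ lam log n`, where `p_k`
is the `k`-th prime.
-/

namespace Pool.Agent.Results.MP_acb0a8_nt.NoSmallMultiplier

open Classical in
/-- For a positive proportion of the primes `n` the numbers `k n + p_k`, `1 ≤ k ≤ lam log n`, are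
all composite (`p_k = Nat.nth Nat.Prime (k - 1)`). -/
theorem result (lam : ℝ) (hlam : 0 < lam) : ∃ c : ℝ, 0 < c ∧ ∃ X₀ : ℝ, ∀ X : ℝ, X₀ ≤ X →
    c * X / Real.log X ≤ (((Finset.Icc 1 ⌊X⌋₊).filter (fun n : ℕ => n.Prime ∧
      ∀ k : ℕ, 1 ≤ k → (k : ℝ) ≤ lam * Real.log n →
        ¬ (k * n + Nat.nth Nat.Prime (k - 1)).Prime)).card : ℝ) :=
  NoSmall.main PTg.theoremG PTa.NBex_p lam hlam

end Pool.Agent.Results.MP_acb0a8_nt.NoSmallMultiplier
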