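import Pool.Agent.Lib.MP_acb0a8_nt.H13A
import Pool.Agent.Lib.MP_acb0a8_nt.H13F

/-!
# `MP_acb0a8_nt`: for a positive proportion of `n` some `k ≤ A log n` makes `k n + p_k` prime

`Nat.nth Nat.Prime (k - 1)` is the `k`-th prime `p_k`, for `k ≥ 1`.

Theorem: for every `A > 0` there is `c > 0` such that for all large `N` at least `c N` of the
integers `1 ≤ n ≤ N` have a `k` with `1 ≤ k < 3 √n`, `k ≤ A log n` and `k n + p_k` prime.

Proof: `k` runs through the odd numbers `≤ J`, `J` a small multiple of `log N`, which are not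
divisible by the exceptional prime `l` of the Linnik type theorem `Lnk.primesAP`. First moment:
primes `≡ p_k` modulo `k`. Second moment: for `i ≠ j` an upper bound sieve (Brun-Hooley) gives the
factor `exp (4 ∑ 1 / q)`, the sum over the primes `q > 4` which divide `i j (i p_j - j p_i)`; this
number is not zero since `p_k > k`. The average of the factor over the pairs is bounded
(`avg_bad`): for a prime `q` with `q ^ 2 ≤ log J` only `O (J q ^ (-1/8))` of the `j ≤ J` have
`p_j ≡ a j` modulo `q` (`N_card`), because two such numbers `j`, `j + t` force the difference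
`p_{j+t} - p_j` into the class `a t`, and pairs of primes with such a difference are few, by the
sieve again. Then Cauchy-Schwarz.

Proof: helper78 and helper13; Lean: helper13, helper78, helper7, helper32. The library files for
the sieve and for primes in progressions are due to other members of the team.
-/

namespace Pool.Agent.Results.MP_acb0a8_nt.PositiveProportion

open Classical in
theorem result (A : ℝ) (hA : 0 < A) :
    ∃ c : ℝ, 0 < c ∧ ∃ N₀ : ℕ, ∀ N : ℕ, N₀ ≤ N →
      c * N ≤ (((Finset.Icc 1 N).filter fun n : ℕ =>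
        ∃ k : ℕ, 1 ≤ k ∧ (k : ℝ) < 3 * √(n : ℝ) ∧ (k : ℝ) ≤ A * Real.log n ∧
          (k * n + Nat.nth Nat.Prime (k - 1)).Prime).card : ℝ) := by
  obtain ⟨c, hc, N₀, h⟩ := Pool.Agent.ACB13.final_all Pool.Agent.ACB13.avg_bad A hA
  refine ⟨c, hc, N₀, fun N hN => (h N hN).trans ?_⟩
  have hsub : ((Finset.Icc 1 N).filter fun n : ℕ => ∃ k : ℕ, 1 ≤ k ∧
      (k : ℝ) ≤ A * Real.log n ∧ (k : ℝ) < 3 * √(n : ℝ) ∧
      (k * n + Pool.Agent.ACB.pk k).Prime) ⊆
      ((Finset.Icc 1 N).filter fun n : ℕ =>
        ∃ k : ℕ, 1 ≤ k ∧ (k : ℝ) < 3 * √(n : ℝ) ∧ (k : ℝ) ≤ A * Real.log n ∧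
          (k * n + Nat.nth Nat.Prime (k - 1)).Prime) := by
    intro n hn
    rw [Finset.mem_filter] at hn ⊢
    obtain ⟨hn1, k, hk1, hk2, hk3, hk4⟩ := hn
    exact ⟨hn1, k, hk1, hk3, hk2, hk4⟩
  exact_mod_cast Finset.card_le_card hsub

end Pool.Agent.Results.MP_acb0a8_nt.PositiveProportion
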